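import Pool.Agent.ALT.Final

/-!
# MP_643ad6_al, Q1: nilpotency of the Zhevlakov radical of a free alternative algebra

For every field `Φ` and every `n` the Zhevlakov radical of the free alternative `Φ`-algebra on `n`
generators (its largest ideal of quasi-regular elements) is a nilpotent ideal.
-/

universe u

/-- **Theorem.** For every field `Φ` and every `n`, the free alternative `Φ`-algebra on `n`
generators has a largest ideal consisting of quasi-regular elements, and this ideal is nilpotent:
there is `N ≥ 1` such that every product of `N` of its elements, in any bracketing, is `0`. -/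
theorem Pool.Agent.Results.MP_643ad6_al.RadicalNilpotent.result (Φ : Type u) [Field Φ] (n : ℕ) :
    ∃ J : Submodule Φ (ALT.FreeAlt Φ (Fin n)),
      IsGreatest {I : Submodule Φ (ALT.FreeAlt Φ (Fin n)) | ALT.IsQRIdeal I} J ∧
      ∃ N : ℕ, 0 < N ∧ ∀ x : ALT.FreeAlt Φ (Fin n),
        ALT.IsProd (J : Set (ALT.FreeAlt Φ (Fin n))) N x → x = 0 :=
  ⟨ALT.zhevlakov Φ (ALT.FreeAlt Φ (Fin n)), ALT.zhevlakov_isGreatest Φ, ALT.final Φ n⟩
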